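import Pool.Agent.Lib.MP_6d445e_gt.W.Iface4
import Pool.Agent.Lib.MP_e6fef2_lc.H2.Idx

/-!
# Module IDW: cardinal arithmetic for the iteration of length the successor of the continuum
-/

universe u v

open Cardinal Filter

namespace Pool.Agent.Lib.MP_6d445e_gt.H20

open Pool.Agent.Lib.MP_100a6c_lc
open Pool.Agent.Lib.MP_e6fef2_lc
open Pool.Agent.Lib.MP_c5d73d_lc.F.H81 (bounded_of_lt mk_Iic_lt)
open Pool.Agent.Lib.MP_e6fef2_lc.H2 (mk_W W_Iio W_bdd)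

theorem idw_ex : Idw (Order.succ ((2 : Cardinal.{u}) ^ ℵ₀)) (Order.succ ((2 : Cardinal.{u}) ^ ℵ₀)).ord.ToType := by
  have h0 : (ℵ₀ : Cardinal.{u}) ≤ 2 ^ ℵ₀ := (cantor ℵ₀).le
  refine ⟨by simp, isRegular_succ h0, Order.lt_succ_iff.2 h0, fun c hc => ?_,
    fun i => Cardinal.mk_Iio_toType_ord_lt i⟩
  have h1 : c ≤ 2 ^ ℵ₀ := Order.lt_succ_iff.1 hc
  refine Order.lt_succ_iff.2 ?_
  refine (power_le_power_right h1).trans ?_
  rw [← power_mul, aleph0_mul_aleph0]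

section

variable {κ : Cardinal.{u}} {I : Type u} [LinearOrder I]

theorem two_pow_lt (h : Idw κ I) : (2 : Cardinal.{u}) ^ ℵ₀ < κ :=
  h.pow 2 ((natCast_lt_aleph0 (n := 2)).trans h.unc)

theorem W_lt (h : Idw κ I) : #W.{u} < κ := by
  rw [mk_W]
  exact lt_of_le_of_lt aleph_one_le_continuum (two_pow_lt h)

theorem Sw_lt (h : Idw κ I) : #Sw.{u} < κ := by
  refine lt_of_le_of_lt ?_ (two_pow_lt h)
  refine (mk_subtype_le _).trans ?_
  simp

theorem bdd (h : Idw κ I) (Z : Set I) (hZ : #Z < κ) : ∃ i, ∀ z ∈ Z, z < i := by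
  obtain ⟨hc, hr, h0, hl, hs⟩ := h
  subst hc
  exact bounded_of_lt h0 hr hs Z hZ

theorem kc (h : Idw κ I) : KC I Sw.{u} := by
  intro s
  by_contra hcon
  push Not at hcon
  have hinj : Function.Injective s := by
    intro i j hij
    by_contra hne
    exact hcon i j hne (s i) le_rfl (hij ▸ le_rfl)
  have h1 := mk_le_of_injective hinj
  rw [h.card] at h1
  exact absurd h1 (not_le.2 (Sw_lt h))

theorem clo [WellFoundedLT I] (hI : Idw κ I) (h : I → I) (i : I) :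
    ∃ δ, i < δ ∧ UC δ ∧ ∀ j < δ, h j < δ := by
  classical
  have hbd := bdd hI
  have hWκ := W_lt hI
  have hctb := W_Iio.{u}
  have hbW := W_bdd.{u}
  have hIic : ∀ x : I, #(Set.Iic x) < κ := by
    intro x
    have h1 : Set.Iic x = insert x (Set.Iio x) := by
      ext y; simp [le_iff_eq_or_lt]
    rw [h1]
    refine lt_of_le_of_lt Cardinal.mk_insert_le ?_
    exact Cardinal.add_lt_of_lt hI.unc.le (hI.seg x) (lt_of_lt_of_le Cardinal.one_lt_aleph0 hI.unc.le)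
  -- a bound for fewer than κ many
  have hstep : ∀ (ξ : W.{u}) (g : ∀ η : W.{u}, η < ξ → I),
      ∃ y : I, i < y ∧ ∀ (η : W.{u}) (hη : η < ξ), g η hη < y ∧ ∀ j ≤ g η hη, h j < y := by
    intro ξ g
    have hc : (Set.Iio ξ).Countable := hctb ξ
    let Z : Set I := {i} ∪ ⋃ p : Set.Iio ξ, ({g p.1 p.2} ∪ h '' Set.Iic (g p.1 p.2))
    have hZ : #Z < κ := by
      refine lt_of_le_of_lt (Cardinal.mk_union_le _ _) ?_
      refine Cardinal.add_lt_of_lt hI.unc.le ?_ ?_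
      · rw [Cardinal.mk_singleton]
        exact lt_trans Cardinal.one_lt_aleph0 hI.unc
      · refine Cardinal.card_iUnion_lt_iff_forall_of_isRegular hI.reg ?_ |>.2 ?_
        · have : #(Set.Iio ξ) ≤ ℵ₀ := by
            rw [Cardinal.mk_le_aleph0_iff]; exact hc.to_subtype
          exact lt_of_le_of_lt this hI.unc
        · intro p
          refine lt_of_le_of_lt (Cardinal.mk_union_le _ _) ?_
          refine Cardinal.add_lt_of_lt hI.unc.le ?_ ?_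
          · rw [Cardinal.mk_singleton]
            exact lt_trans Cardinal.one_lt_aleph0 hI.unc
          · exact lt_of_le_of_lt Cardinal.mk_image_le (hIic _)
    obtain ⟨y, hy⟩ := hbd Z hZ
    refine ⟨y, hy i (Or.inl rfl), fun η hη => ⟨?_, fun j hj => ?_⟩⟩
    · exact hy _ (Or.inr (Set.mem_iUnion.2 ⟨⟨η, hη⟩, Or.inl rfl⟩))
    · exact hy _ (Or.inr (Set.mem_iUnion.2 ⟨⟨η, hη⟩, Or.inr ⟨j, hj, rfl⟩⟩))
  choose st hst1 hst2 using hstep
  let x : W.{u} → I := WellFounded.fix (wellFounded_lt (α := W.{u})) fun ξ g => st ξ g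
  have hx : ∀ ξ, x ξ = st ξ fun η _ => x η := fun ξ => WellFounded.fix_eq _ _ _
  have hx1 : ∀ ξ, i < x ξ := fun ξ => by rw [hx]; exact hst1 _ _
  have hx2 : ∀ η ξ, η < ξ → x η < x ξ := fun η ξ hη => by
    rw [hx ξ]; exact (hst2 ξ (fun η _ => x η) η hη).1
  have hx3 : ∀ η ξ, η < ξ → ∀ j ≤ x η, h j < x ξ := fun η ξ hη j hj => by
    rw [hx ξ]; exact (hst2 ξ (fun η _ => x η) η hη).2 j hj
  have hrange : #(Set.range x) < κ := lt_of_le_of_lt Cardinal.mk_range_le hWκ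
  obtain ⟨y, hy⟩ := hbd _ hrange
  have hne : {y : I | ∀ ξ, x ξ < y}.Nonempty := ⟨y, fun ξ => hy _ ⟨ξ, rfl⟩⟩
  let δ := (wellFounded_lt (α := I)).min {y : I | ∀ ξ, x ξ < y} hne
  have hδ : ∀ ξ, x ξ < δ := (wellFounded_lt (α := I)).min_mem _ hne
  have hmin : ∀ j < δ, ∃ ξ, j ≤ x ξ := by
    intro j hj
    by_contra hcon
    push Not at hcon
    exact (wellFounded_lt (α := I)).not_lt_min _ (show j ∈ {y : I | ∀ ξ, x ξ < y} from hcon) hj
  have hex : ∀ η : W.{u}, ∃ ξ, η < ξ := fun η => by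
    obtain ⟨ξ, hξ⟩ := hbW {η} (Set.countable_singleton η)
    exact ⟨ξ, hξ η rfl⟩
  obtain ⟨ξ0, _⟩ := hbW ∅ Set.countable_empty
  have : Nonempty W.{u} := ⟨ξ0⟩
  refine ⟨δ, (hx1 ξ0).trans (hδ ξ0), ?_, ?_⟩
  · intro s hs hsd
    choose! w hw using fun j (hj : j ∈ s) => hmin j (hsd j hj)
    obtain ⟨ζ, hζ⟩ := hbW (w '' s) (hs.image w)
    exact ⟨x ζ, hδ ζ, fun j hj => (hw j hj).trans_lt (hx2 _ _ (hζ _ ⟨j, hj, rfl⟩))⟩
  · intro j hj
    obtain ⟨ξ, hξ⟩ := hmin j hj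
    obtain ⟨η, hη⟩ := hex ξ
    exact (hx3 ξ η hη j hξ).trans (hδ η)

end

/-- IDW. -/
theorem idw : IdwStatement.{u} :=
  ⟨⟨_, idw_ex⟩, fun _ _ _ _ h => ⟨bdd h, W_lt h, Sw_lt h, kc h, clo h⟩⟩

end Pool.Agent.Lib.MP_6d445e_gt.H20
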